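import Pool.Agent.J6H37.DR.Exact

/-!
# Families forcing `t` disjointly representable members: the exact value of `r(n,t)`

`r(n,t) = C(n,0) + C(n,1) + ... + C(n,t-1) + 1` for all `n` and all `t ≥ 1`. So the upper bound which follows from
the Sauer-Shelah lemma is always attained, not only for `t ≤ 3`.

Proof of the lower bound. Let `𝓕` consist of the sets `S ⊆ {1, ..., n}` such that at most `t - 2` elements of
`{1, ..., max S}` are missing in `S` (and of the empty set). The sets with maximum `M` are determined by the
missing elements, a set of at most `t - 2` numbers below `M`; so `𝓕` has as many members as there are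
sets with at most `t - 1` elements. If `F_1, ..., F_t` in `𝓕` are represented by `x_1, ..., x_t` and `x_t`, say, is
the largest of these, then `F_t` contains `x_t` and misses the `t - 1` smaller elements `x_1, ..., x_{t-1}`, a
contradiction.
-/

set_option autoImplicit false

namespace Pool.Agent.Results.MP_4beb09_co.ExactValue

open Finset Pool.Agent.J6H37.DR

/-- **The exact value of `r(n,t)`**: for all `n` and all `t ≥ 1`, `r(n,t)` is one more than the number of the
subsets with fewer than `t` elements of an `n`-element set. -/
theorem result (n t : ℕ) (ht : 1 ≤ t) : r n t = ∑ i ∈ range t, n.choose i + 1 := exact n t ht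

end Pool.Agent.Results.MP_4beb09_co.ExactValue
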